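import Pool.Agent.H82.RD.Targets

/-!
MP_7ecdd4_nt, board rd82_modules, row DXI: the expansion of the columns.
-/

set_option autoImplicit false

namespace Pool.Agent.H11.RD

open Pool.Agent.H82.RD

theorem pf_DXI (hDXL : T_DXL) (hDXY : T_DXY) (hDXZ : T_DXZ) (hDXO : T_DXO) : T_DXI := by
  intro R _ ϖ E Jm K v y z y₁ ξ η E₀ Q hz hQ hy a i
  obtain ⟨hadd, hsmul, hmono, hcong⟩ := hDXL R ϖ E Jm K v y z
  have h0 : Xp ϖ E Jm y z 0 0 fun k => E₀ * (1 + Q) ^ z k := hDXO R ϖ E Jm K v y z E₀ Q hz hQ
  have hzero : ∀ d i, Xp ϖ E Jm y z d i fun _ => (0 : R) := by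
    intro d i
    have h := hmono 0 0 d i _ (Nat.zero_le _) (Nat.zero_le _) (hsmul 0 0 _ 0 h0)
    simpa only [zero_mul] using h
  have hsum : ∀ (d i : ℕ) (s : Finset (Fin v)) (f : Fin v → K → R),
      (∀ j ∈ s, Xp ϖ E Jm y z d i (f j)) → Xp ϖ E Jm y z d i fun k => ∑ j ∈ s, f j k := by
    intro d i s f
    classical
    induction s using Finset.induction_on with
    | empty =>
      intro _
      simpa only [Finset.sum_empty] using hzero d i
    | insert j s hj ih =>
      intro h
      have h1 := hadd d i _ _ (h j (Finset.mem_insert_self _ _))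
        (ih fun j' hj' => h j' (Finset.mem_insert_of_mem hj'))
      simpa only [Finset.sum_insert hj] using h1
  have hpow : ∀ (d i : ℕ) (φ : K → R) (j : Fin v) (n : ℕ), Xp ϖ E Jm y z d i φ →
      Xp ϖ E Jm y z (n + d) i fun k => y k j ^ n * φ k := by
    intro d i φ j n h
    induction n with
    | zero => simpa only [pow_zero, one_mul, zero_add] using h
    | succ n ih =>
      have h1 := hDXY R ϖ E Jm K v y z (n + d) i _ j ih
      have e1 : (fun k => y k j * (y k j ^ n * φ k)) = fun k => y k j ^ (n + 1) * φ k := by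
        funext k; ring
      rw [e1] at h1
      rw [show n + 1 + d = n + d + 1 by omega]
      exact h1
  have hbase : ∀ s : Finset (Fin v), Xp ϖ E Jm y z (∑ j ∈ s, a j) 0 fun k =>
      (∏ j ∈ s, y k j ^ a j) * (E₀ * (1 + Q) ^ z k) := by
    intro s
    classical
    induction s using Finset.induction_on with
    | empty => simpa only [Finset.sum_empty, Finset.prod_empty, one_mul] using h0
    | insert j s hj ih =>
      have h1 := hpow _ 0 _ j (a j) ih
      simpa only [Finset.sum_insert hj, Finset.prod_insert hj, mul_assoc] using h1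
  induction i with
  | zero =>
    have h1 := hbase Finset.univ
    simpa only [pow_zero, mul_one, add_zero] using h1
  | succ i ih =>
    set φ : K → R := fun k => (∏ j, y k j ^ a j) * y₁ k ^ i * (E₀ * (1 + Q) ^ z k) with hφ
    set d : ℕ := ∑ j, a j + i with hd
    have h1 : Xp ϖ E Jm y z (d + 1) (i + 1) fun k => ξ * ((z k : R) * φ k) :=
      hmono d (i + 1) (d + 1) (i + 1) _ (Nat.le_succ _) le_rfl
        (hsmul _ _ _ ξ (hDXZ R ϖ E Jm K v y z d i φ hz ih))
    have h2 : Xp ϖ E Jm y z (d + 1) (i + 1) fun k => ∑ j, η j * (y k j * φ k) :=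
      hsum (d + 1) (i + 1) Finset.univ (fun j k => η j * (y k j * φ k)) fun j _ =>
        hmono (d + 1) i (d + 1) (i + 1) _ le_rfl (Nat.le_succ _)
          (hsmul _ _ _ (η j) (hDXY R ϖ E Jm K v y z d i φ j ih))
    have h3 := hadd _ _ _ _ h1 h2
    refine hcong _ _ _ _ (fun k => ?_) h3
    have e1 : (ξ * ((z k : R) * φ k) + ∑ j, η j * (y k j * φ k)) -
        (∏ j, y k j ^ a j) * y₁ k ^ (i + 1) * (E₀ * (1 + Q) ^ z k) =
        (y₁ k - (ξ * (z k : R) + ∑ j, η j * y k j)) * (-φ k) := by
      have e2 : ∑ j, η j * (y k j * φ k) = (∑ j, η j * y k j) * φ k := by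
        rw [Finset.sum_mul]
        exact Finset.sum_congr rfl fun j _ => by ring
      rw [e2]
      simp only [hφ]
      ring
    rw [e1]
    exact Dvd.dvd.mul_right (hy k) _

end Pool.Agent.H11.RD
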