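import Pool.Agent.H91.RD.Targets2
import Pool.Agent.H91.RD.Basic

/-!
# MP_609556_an: module LEVW (the constants of one level)
-/

open MeasureTheory Set Filter Topology Metric

namespace Pool.Agent.H11.RD

open Pool.Agent.H91.RD

/-- negative derivative at a point of `[0,1]` -/
theorem neg_near {f : ℝ → ℝ} (hf : Reaction f) {p : ℝ} (hp : p ∈ Icc (0 : ℝ) 1)
    (hd : derivWithin f (Icc 0 1) p < 0) : ∃ μ η : ℝ, 0 < μ ∧ 0 < η ∧
      ∀ s ∈ Icc (0 : ℝ) 1, ∀ t ∈ Icc (0 : ℝ) 1, p - η ≤ s → s ≤ t → t ≤ p + η →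
        f t - f s ≤ -(μ * (t - s)) := by
  have hu : UniqueDiffOn ℝ (Icc (0 : ℝ) 1) := uniqueDiffOn_Icc zero_lt_one
  have hc := hf.smooth.continuousOn_derivWithin hu le_rfl
  have h1 := (hc p hp).eventually (gt_mem_nhds (show derivWithin f (Icc 0 1) p <
    derivWithin f (Icc 0 1) p / 2 by linarith))
  rw [Filter.Eventually, Metric.mem_nhdsWithin_iff] at h1
  obtain ⟨ε, hε, hball⟩ := h1
  refine ⟨-(derivWithin f (Icc 0 1) p / 2), ε / 2, by linarith, by linarith, ?_⟩
  intro s hs t ht hps hst htp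
  have hD : Convex ℝ (Icc s t) := convex_Icc s t
  have hsub : Icc s t ⊆ Icc (0 : ℝ) 1 := Icc_subset_Icc hs.1 ht.2
  have hint : interior (Icc s t) ⊆ Ioo (0 : ℝ) 1 := by
    rw [interior_Icc]
    exact Ioo_subset_Ioo hs.1 ht.2
  have hdiff : DifferentiableOn ℝ f (Icc 0 1) := hf.smooth.differentiableOn one_ne_zero
  have := hD.image_sub_le_mul_sub_of_deriv_le (f := f) (C := derivWithin f (Icc 0 1) p / 2)
    (hf.smooth.continuousOn.mono hsub)
    (by
      intro x hx
      have h2 := hint hx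
      have h3 : Icc (0 : ℝ) 1 ∈ 𝓝 x := Icc_mem_nhds h2.1 h2.2
      exact (hdiff x ⟨h2.1.le, h2.2.le⟩).differentiableAt h3 |>.differentiableWithinAt)
    (by
      intro x hx
      have h2 := hint hx
      have h3 : Icc (0 : ℝ) 1 ∈ 𝓝 x := Icc_mem_nhds h2.1 h2.2
      rw [← derivWithin_of_mem_nhds h3]
      rw [interior_Icc] at hx
      have h4 : x ∈ ball p ε ∩ Icc (0 : ℝ) 1 := by
        refine ⟨?_, h2.1.le, h2.2.le⟩
        rw [mem_ball, Real.dist_eq, abs_lt]
        constructor <;> linarith [hx.1, hx.2]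
      exact le_of_lt (hball h4))
    s ⟨le_rfl, hst⟩ t ⟨hst, le_rfl⟩ hst
  linarith

/-- monotonicity of `Hyp` in the constants -/
theorem Hyp_mono {f : ℝ → ℝ} {c lam : ℝ} {φ : ℝ → ℝ} {K k μ η0 θ K' μ' η' : ℝ}
    (h : Hyp f c lam φ K k μ η0 θ) (hK : K ≤ K') (hμ0 : 0 < μ') (hμ : μ' ≤ μ) (hη0 : 0 < η')
    (hη : η' ≤ η0) : Hyp f c lam φ K' k μ' η' θ where
  toLip :=
    { K0 := lt_of_lt_of_le h.toLip.K0 hK
      lip := fun a b => (h.toLip.lip a b).trans (mul_le_mul_of_nonneg_right hK (abs_nonneg _))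
      f0 := h.toLip.f0
      f1 := h.toLip.f1
      out := h.toLip.out }
  k0 := h.k0
  kK := h.kK.trans hK
  kc := h.kc
  mu0 := hμ0
  eta0 := hη0
  eta1 := hη.trans h.eta1
  near1 := by
    intro a b h1 h2 h3
    have := h.near1 a b (by linarith) h2 h3
    have h4 : μ' * (b - a) ≤ μ * (b - a) := mul_le_mul_of_nonneg_right hμ (by linarith)
    linarith
  near0 := fun a b h1 h2 h3 => h.near0 a b h1 h2 (by linarith)
  th0 := h.th0
  th1 := h.th1
  high := h.high
  front := h.front
  lamc := h.lamc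

theorem Lip_mono {f : ℝ → ℝ} {K K' : ℝ} (h : Lip f K) (hK : K ≤ K') : Lip f K' :=
    { K0 := lt_of_lt_of_le h.K0 hK
      lip := fun a b => (h.lip a b).trans (mul_le_mul_of_nonneg_right hK (abs_nonneg _))
      f0 := h.f0
      f1 := h.f1
      out := h.out }

section
variable {f φ : ℝ → ℝ} {a b c : ℝ}

theorem aff_mem (ha : 0 ≤ a) (hab : a < b) (hb : b ≤ 1) {s : ℝ} (hs : s ∈ Icc (0 : ℝ) 1) :
    a + (b - a) * s ∈ Icc (0 : ℝ) 1 := by
  have h1 := hs.1
  have h2 := hs.2
  have h3 : 0 ≤ (b - a) * s := mul_nonneg (by linarith) h1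
  have h4 : (b - a) * s ≤ (b - a) * 1 := mul_le_mul_of_nonneg_left h2 (by linarith)
  constructor <;> linarith

theorem rcut_reaction (hf : Reaction f) (ha : 0 ≤ a) (hab : a < b) (hb : b ≤ 1) (hfa : f a = 0)
    (hfb : f b = 0) : Reaction (rcut f a b) where
  smooth := by
    have h1 : ContDiffOn ℝ 1 (resc f a b) (Icc 0 1) := by
      unfold resc
      apply ContDiffOn.mul contDiffOn_const
      exact hf.smooth.comp (by fun_prop) (fun s hs => aff_mem ha hab hb hs)
    refine h1.congr fun s hs => ?_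
    unfold rcut
    rw [if_pos hs]
  zero := by
    unfold rcut resc
    rw [if_pos ⟨le_rfl, zero_le_one⟩, mul_zero, add_zero, hfa, mul_zero]
  one := by
    unfold rcut resc
    rw [if_pos ⟨zero_le_one, le_rfl⟩, mul_one, add_sub_cancel, hfb, mul_zero]
  out := fun s hs => by
    unfold rcut
    rw [if_neg hs]

theorem rcut_deriv (hf : Reaction f) (ha : 0 ≤ a) (hab : a < b) (hb : b ≤ 1) {s : ℝ}
    (hs : s ∈ Icc (0 : ℝ) 1) :
    derivWithin (rcut f a b) (Icc 0 1) s = derivWithin f (Icc 0 1) (a + (b - a) * s) := by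
  have hu : UniqueDiffWithinAt ℝ (Icc (0 : ℝ) 1) s := uniqueDiffOn_Icc zero_lt_one s hs
  have h1 : HasDerivWithinAt f (derivWithin f (Icc 0 1) (a + (b - a) * s)) (Icc 0 1)
      (a + (b - a) * s) :=
    (hf.smooth.differentiableOn one_ne_zero _ (aff_mem ha hab hb hs)).hasDerivWithinAt
  have h2 : HasDerivWithinAt (fun s : ℝ => a + (b - a) * s) (b - a) (Icc 0 1) s := by
    have := ((hasDerivAt_id s).const_mul (b - a)).const_add a
    exact (this.congr_deriv (by ring)).hasDerivWithinAt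
  have h3 := (h1.comp s h2 (fun s hs => aff_mem ha hab hb hs)).const_mul (b - a)⁻¹
  have hd : b - a ≠ 0 := by linarith
  have h4 : HasDerivWithinAt (rcut f a b) (derivWithin f (Icc 0 1) (a + (b - a) * s)) (Icc 0 1) s := by
    refine (h3.congr_deriv ?_).congr (fun t ht => ?_) ?_
    · field_simp
    · unfold rcut resc
      rw [if_pos ht]
      rfl
    · unfold rcut resc
      rw [if_pos hs]
      rfl
  exact h4.derivWithin hu

theorem wave_bounds (hw : Wave f a b c φ) (z : ℝ) : a < φ z ∧ φ z < b := by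
  have hanti : StrictAnti φ := strictAnti_of_deriv_neg hw.dec
  constructor
  · have h1 : a ≤ φ (z + 1) := hanti.antitone.le_of_tendsto hw.right (z + 1)
    have h2 := hanti (show z < z + 1 by linarith)
    linarith
  · have h1 : φ (z - 1) ≤ b := hanti.antitone.ge_of_tendsto hw.left (z - 1)
    have h2 := hanti (show z - 1 < z by linarith)
    linarith

theorem wave_front (hw : Wave f a b c φ) (hab : a < b) {lam : ℝ} (hlam : c / 2 < lam)
    (hdec : ∃ C, ∀ z, φ z - a ≤ C * Real.exp (-lam * z)) :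
    Front (rcut f a b) c lam (fun z => (φ z - a) / (b - a)) := by
  have hd : 0 < b - a := by linarith
  have hφ : Differentiable ℝ φ := hw.c2.differentiable (by norm_num)
  have hφ1 : ContDiff ℝ 1 (deriv φ) := by
    have := hw.c2
    rw [show (2 : WithTop ℕ∞) = 1 + 1 from rfl, contDiff_succ_iff_deriv] at this
    exact this.2.2
  have hφ' : Differentiable ℝ (deriv φ) := hφ1.differentiable (by norm_num)
  have d1 : deriv (fun z => (φ z - a) / (b - a)) = fun z => deriv φ z / (b - a) := by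
    funext z
    exact (((hφ z).hasDerivAt.sub_const a).div_const (b - a)).deriv
  have d2 : deriv (deriv (fun z => (φ z - a) / (b - a))) = fun z => deriv (deriv φ) z / (b - a) := by
    rw [d1]
    funext z
    exact ((hφ' z).hasDerivAt.div_const (b - a)).deriv
  refine
    { cpos := hw.cpos
      c2 := (hw.c2.sub contDiff_const).div_const _
      eqn := ?_
      dec := ?_
      left := ?_
      right := ?_
      fast := hlam
      decay := ?_ }
  · intro z
    rw [d2, d1]
    obtain ⟨h1, h2⟩ := wave_bounds hw z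
    have hm : (φ z - a) / (b - a) ∈ Icc (0 : ℝ) 1 := by
      constructor
      · exact div_nonneg (by linarith) hd.le
      · rw [div_le_one hd]
        linarith
    have h3 : rcut f a b ((φ z - a) / (b - a)) = f (φ z) / (b - a) := by
      unfold rcut resc
      rw [if_pos hm]
      have : a + (b - a) * ((φ z - a) / (b - a)) = φ z := by
        field_simp
        ring
      rw [this]
      ring
    rw [h3]
    have := hw.eqn z
    have h4 : deriv (deriv φ) z / (b - a) + c * (deriv φ z / (b - a)) + f (φ z) / (b - a) =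
        (deriv (deriv φ) z + c * deriv φ z + f (φ z)) / (b - a) := by ring
    rw [h4, this, zero_div]
  · intro z
    rw [d1]
    exact div_neg_of_neg_of_pos (hw.dec z) hd
  · have := (hw.left.sub_const a).div_const (b - a)
    rwa [div_self hd.ne'] at this
  · have := (hw.right.sub_const a).div_const (b - a)
    rwa [sub_self, zero_div] at this
  · obtain ⟨C, hC⟩ := hdec
    refine ⟨C / (b - a), fun z => ?_⟩
    rw [div_mul_eq_mul_div]
    exact div_le_div_of_nonneg_right (hC z) hd.le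

/-- from a neighbourhood of `p` in `f` to a neighbourhood in `resc` -/
theorem resc_near (hf : Reaction f) (hab : a < b) {p q : ℝ} (hp0 : 0 < p) (hp1 : p < 1)
    (hpq : a + (b - a) * q = p) (hd : derivWithin f (Icc 0 1) p < 0) :
    ∃ μ η : ℝ, 0 < μ ∧ 0 < η ∧ ∀ s t, q - η ≤ s → s ≤ t → t ≤ q + η →
      resc f a b t - resc f a b s ≤ -(μ * (t - s)) := by
  obtain ⟨μ, η, hμ, hη, h⟩ := neg_near hf ⟨hp0.le, hp1.le⟩ hd
  have hba : 0 < b - a := by linarith
  obtain ⟨m, hm⟩ : ∃ m, m = min η (min p (1 - p)) := ⟨_, rfl⟩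
  have hm0 : 0 < m := by
    rw [hm]
    exact lt_min hη (lt_min hp0 (by linarith))
  have hm1 : m ≤ η := by rw [hm]; exact min_le_left _ _
  have hm2 : m ≤ p := by rw [hm]; exact (min_le_right _ _).trans (min_le_left _ _)
  have hm3 : m ≤ 1 - p := by rw [hm]; exact (min_le_right _ _).trans (min_le_right _ _)
  refine ⟨μ, m / (b - a), hμ, by positivity, fun s t h1 h2 h3 => ?_⟩
  have k1 : (b - a) * (q - m / (b - a)) ≤ (b - a) * s := mul_le_mul_of_nonneg_left h1 hba.le
  have k2 : (b - a) * t ≤ (b - a) * (q + m / (b - a)) := mul_le_mul_of_nonneg_left h3 hba.le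
  have k3 : (b - a) * s ≤ (b - a) * t := mul_le_mul_of_nonneg_left h2 hba.le
  have k4 : (b - a) * (m / (b - a)) = m := mul_div_cancel₀ _ hba.ne'
  rw [mul_sub, k4] at k1
  rw [mul_add, k4] at k2
  have k5 := h (a + (b - a) * s) ⟨by linarith, by linarith⟩ (a + (b - a) * t)
    ⟨by linarith, by linarith⟩ (by linarith) (by linarith) (by linarith)
  unfold resc
  rw [← mul_sub]
  have k6 := mul_le_mul_of_nonneg_left k5 (inv_pos.2 hba).le
  refine k6.trans (le_of_eq ?_)
  have : a + (b - a) * t - (a + (b - a) * s) = (b - a) * (t - s) := by ring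
  rw [this]
  field_simp

end

theorem levw (hF0 : T_F0) (hHY : T_HYPF) (hFRD : T_FRD) (hLIP : T_LIP) : T_LEVW := by
  intro f φ a b c hf ha hab hb hfa hfb hw hdb hda
  have hba : 0 < b - a := by linarith
  have hg := rcut_reaction hf ha hab hb hfa hfb
  -- the front
  obtain ⟨lam, hlam, hdec⟩ : ∃ lam, c / 2 < lam ∧ ∃ C, ∀ z, φ z - a ≤ C * Real.exp (-lam * z) := by
    rcases hda with hda | ⟨ha0, lam, C, hlam, hC⟩
    · obtain ⟨μ, η, hμ, hη, h⟩ := neg_near hf ⟨ha, by linarith⟩ hda
      have hm : 0 < min η (1 - a) := lt_min hη (by linarith)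
      obtain ⟨C, hC⟩ := hFRD f φ a b c μ (min η (1 - a)) hw hμ hm (by
        intro s hs
        have h1 := min_le_left η (1 - a)
        have h2 := min_le_right η (1 - a)
        have h3 := h a ⟨ha, by linarith⟩ s ⟨by linarith [hs.1], by linarith [hs.2]⟩
          (by linarith) hs.1 (by linarith [hs.2])
        linarith)
      refine ⟨c, by linarith [hw.cpos], C, fun z => ?_⟩
      rw [neg_mul]
      exact hC z
    · exact ⟨lam, hlam, C, fun z => by rw [ha0, sub_zero]; exact hC z⟩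
  have hfr := wave_front hw hab hlam hdec
  have h0 := hF0 _ _ c lam hg hfr
  have h1 : derivWithin (rcut f a b) (Icc 0 1) 1 < 0 := by
    rw [rcut_deriv hf ha hab hb ⟨zero_le_one, le_rfl⟩, mul_one, add_sub_cancel]
    exact hdb
  obtain ⟨lam', K', k, μ', η', θ, hyp⟩ := hHY _ _ c lam hg h1 h0 hfr
  obtain ⟨Kf, hKf⟩ := hLIP f hf
  -- base and top
  obtain ⟨μ1, η1, hμ1, hη1, hbase⟩ : ∃ μ η : ℝ, 0 < μ ∧ 0 < η ∧ (0 < a → ∀ s t, -η ≤ s → s ≤ t →
      t ≤ η → resc f a b t - resc f a b s ≤ -(μ * (t - s))) := by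
    by_cases h : 0 < a
    · rcases hda with hda | ⟨ha0, _⟩
      · obtain ⟨μ, η, hμ, hη, h2⟩ := resc_near hf hab (p := a) (q := 0) h (by linarith)
          (by rw [mul_zero, add_zero]) hda
        refine ⟨μ, η, hμ, hη, fun _ s t h3 h4 h5 => h2 s t (by linarith) h4 (by linarith)⟩
      · exact absurd ha0 h.ne'
    · exact ⟨1, 1, one_pos, one_pos, fun h2 => absurd h2 h⟩
  obtain ⟨μ2, η2, hμ2, hη2, htop⟩ : ∃ μ η : ℝ, 0 < μ ∧ 0 < η ∧ (b < 1 → ∀ s t, 1 - η ≤ s → s ≤ t →
      t ≤ 1 + η → resc f a b t - resc f a b s ≤ -(μ * (t - s))) := by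
    by_cases h : b < 1
    · obtain ⟨μ, η, hμ, hη, h2⟩ := resc_near hf hab (p := b) (q := 1) (by linarith) h
          (by rw [mul_one, add_sub_cancel]) hdb
      exact ⟨μ, η, hμ, hη, fun _ => h2⟩
    · exact ⟨1, 1, one_pos, one_pos, fun h2 => absurd h2 h⟩
  obtain ⟨μ, hμ⟩ : ∃ μ, μ = min μ' (min μ1 μ2) := ⟨_, rfl⟩
  obtain ⟨η0, hη0⟩ : ∃ η0, η0 = min η' (min η1 η2) := ⟨_, rfl⟩
  have m0 : 0 < μ := by rw [hμ]; exact lt_min hyp.mu0 (lt_min hμ1 hμ2)
  have m1 : μ ≤ μ' := by rw [hμ]; exact min_le_left _ _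
  have m2 : μ ≤ μ1 := by rw [hμ]; exact (min_le_right _ _).trans (min_le_left _ _)
  have m3 : μ ≤ μ2 := by rw [hμ]; exact (min_le_right _ _).trans (min_le_right _ _)
  have n0 : 0 < η0 := by rw [hη0]; exact lt_min hyp.eta0 (lt_min hη1 hη2)
  have n1 : η0 ≤ η' := by rw [hη0]; exact min_le_left _ _
  have n2 : η0 ≤ η1 := by rw [hη0]; exact (min_le_right _ _).trans (min_le_left _ _)
  have n3 : η0 ≤ η2 := by rw [hη0]; exact (min_le_right _ _).trans (min_le_right _ _)
  refine ⟨fun z => (φ z - a) / (b - a), max K' Kf, k, μ, η0, θ, lam', ?_⟩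
  exact
    { a0 := ha
      ab := hab
      b1 := hb
      fa := hfa
      fb := hfb
      toLip := Lip_mono hKf (le_max_right _ _)
      hyp := Hyp_mono hyp (le_max_left _ _) m0 m1 n0 n1
      base := by
        intro h s t h3 h4 h5
        have := hbase h s t (by linarith) h4 (by linarith)
        have h6 : μ * (t - s) ≤ μ1 * (t - s) := mul_le_mul_of_nonneg_right m2 (by linarith)
        linarith
      top := by
        intro h s t h3 h4 h5
        have := htop h s t (by linarith) h4 (by linarith)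
        have h6 : μ * (t - s) ≤ μ2 * (t - s) := mul_le_mul_of_nonneg_right m3 (by linarith)
        linarith }

end Pool.Agent.H11.RD
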