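import Pool.Agent.H11.RD.RX

/-!
# MP_609556_an: module LOWS (expansion property, induction step)
-/

open MeasureTheory Set Filter Topology Metric

namespace Pool.Agent.H11.RD

open Pool.Agent.H91.RD

theorem sub_facts {N : ℕ} {f : ℝ → ℝ} {u : ℝ → E N → ℝ} (hu : Cls f u) {t0 : ℝ} (ht0 : 0 < t0)
    (a : ℝ) {t : ℝ} (ht : 0 ≤ t) :
    ContDiff ℝ 2 (fun x => a - u (t0 + t) x) ∧
    (∀ x, DifferentiableAt ℝ (fun s => a - u (t0 + s) x) t) ∧
    ∀ x, deriv (fun s => a - u (t0 + s) x) t =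
      Laplacian.laplacian (fun x => a - u (t0 + t) x) x - f (u (t0 + t) x) := by
  have htp : 0 < t0 + t := by linarith
  have hc : ContDiff ℝ 2 (fun _ : E N => a) := contDiff_const
  have hd1 : ∀ x, HasDerivAt (fun s => a - u (t0 + s) x) (-(deriv (fun s => u s x) (t0 + t))) t := by
    intro x
    have h1 := (hu.dt (t0 + t) htp x).hasDerivAt
    have h2 : HasDerivAt (fun s => t0 + s) 1 t := by
      simpa using (hasDerivAt_id t).const_add t0
    have h3 := h1.comp t h2
    rw [mul_one] at h3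
    exact h3.const_sub a
  refine ⟨hc.sub (hu.c2 _ htp), fun x => (hd1 x).differentiableAt, fun x => ?_⟩
  rw [(hd1 x).deriv, lap_sub' hc.contDiffAt (hu.c2 _ htp).contDiffAt, hu.eqn _ htp x,
    InnerProductSpace.laplacian_const]
  simp only [Pi.zero_apply]
  ring

theorem sub_cont {N : ℕ} {f : ℝ → ℝ} {u : ℝ → E N → ℝ} (hu : Cls f u) {t0 : ℝ} (ht0 : 0 < t0)
    (a σ : ℝ) : ContinuousOn (fun p : ℝ × E N => a - u (t0 + p.1) p.2) (Icc 0 σ ×ˢ univ) := by
  apply ContinuousOn.sub continuousOn_const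
  have h1 : ContinuousOn (fun p : ℝ × E N => ((t0 + p.1, p.2) : ℝ × E N)) (Icc 0 σ ×ˢ univ) := by
    fun_prop
  have h2 : MapsTo (fun p : ℝ × E N => ((t0 + p.1, p.2) : ℝ × E N)) (Icc 0 σ ×ˢ univ)
      (Ioi 0 ×ˢ univ) := by
    rintro ⟨a, b⟩ ⟨ha, _⟩
    refine ⟨?_, mem_univ _⟩
    simp only [mem_Icc] at ha
    simp only [mem_Ioi]
    linarith [ha.1]
  exact hu.cont.comp h1 h2

/-- a point at distance at most `A + B` has a point at distance at most `A` from the centre and at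
most `B` from it -/
theorem exists_centre {N : ℕ} (x0 x : E N) {A B : ℝ} (hA : 0 ≤ A) (hB : 0 ≤ B)
    (h : dist x x0 ≤ A + B) : ∃ x' : E N, dist x' x0 ≤ A ∧ dist x' x ≤ B := by
  by_cases hd : dist x x0 ≤ A
  · exact ⟨x, hd, by rw [dist_self]; exact hB⟩
  · push Not at hd
    have hpos : 0 < dist x x0 := lt_of_le_of_lt hA hd
    refine ⟨x0 + (A / dist x x0) • (x - x0), ?_, ?_⟩
    · rw [dist_eq_norm, add_sub_cancel_left, norm_smul, Real.norm_eq_abs, abs_of_nonneg
        (by positivity), ← dist_eq_norm, div_mul_cancel₀ _ hpos.ne']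
    · have e : x0 + (A / dist x x0) • (x - x0) - x = (A / dist x x0 - 1) • (x - x0) := by
        rw [sub_smul, one_smul]
        abel
      rw [dist_eq_norm, e, norm_smul, Real.norm_eq_abs, abs_sub_comm, abs_of_nonneg, ←
        dist_eq_norm, sub_mul, div_mul_cancel₀ _ hpos.ne', one_mul]
      · linarith
      · rw [sub_nonneg, div_le_one hpos]
        exact hd.le

theorem resc_lip {f : ℝ → ℝ} {K a b : ℝ} (h : Lip f K) (hab : a < b) (s t : ℝ) :
    |resc f a b s - resc f a b t| ≤ K * |s - t| := by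
  have hd : 0 < b - a := by linarith
  unfold resc
  rw [← mul_sub, abs_mul, abs_of_pos (inv_pos.2 hd)]
  have h1 := h.lip (a + (b - a) * s) (a + (b - a) * t)
  have h2 : a + (b - a) * s - (a + (b - a) * t) = (b - a) * (s - t) := by ring
  rw [h2, abs_mul, abs_of_pos hd] at h1
  calc (b - a)⁻¹ * |f (a + (b - a) * s) - f (a + (b - a) * t)|
      ≤ (b - a)⁻¹ * (K * ((b - a) * |s - t|)) :=
        mul_le_mul_of_nonneg_left h1 (inv_pos.2 hd).le
    _ = K * |s - t| := by field_simp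

/-- `K t^(1/2) - d t` is bounded -/
theorem sqrt_bound {d Ka t : ℝ} (hd : 0 < d) (ht : 0 ≤ t) :
    Ka * √t - d * t ≤ Ka ^ 2 / (4 * d) := by
  rw [le_div_iff₀ (by positivity)]
  have h1 : √t * √t = t := Real.mul_self_sqrt ht
  have h2 : (Ka * √t - d * t) * (4 * d) = Ka ^ 2 - (Ka - 2 * d * √t) ^ 2 := by
    calc (Ka * √t - d * t) * (4 * d) = (Ka * √t - d * (√t * √t)) * (4 * d) := by rw [h1]
      _ = _ := by ring
  rw [h2]
  linarith [sq_nonneg (Ka - 2 * d * √t)]

theorem lows (hp1s : T_P1S) (hrx : T_RX) (hst0 : T_ST0) (hrsc : T_RSC) : T_LOWS := by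
  intro N f φ a b c cp K k μ η0 θ lam hN hL ha hccp hLa δ hδ
  have hΔ : 0 < b - a := by linarith [hL.ab]
  have hΔ1 : b - a ≤ 1 := by linarith [hL.b1]
  have hb1 := hL.b1
  have hlip := hL.toLip
  have hK0 := hlip.K0
  have hc0 : 0 < c := hL.hyp.front.cpos
  have hμ := hL.hyp.mu0
  have hη0 := hL.hyp.eta0
  have ha1 : a ≤ 1 := by linarith
  -- speeds
  obtain ⟨c', hc'⟩ : ∃ c', c' = c + (cp - c) / 3 := ⟨_, rfl⟩
  obtain ⟨c'', hc''⟩ : ∃ c'', c'' = c + 2 * (cp - c) / 3 := ⟨_, rfl⟩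
  have e1 : c < c' := by rw [hc']; linarith
  have e2 : c' < c'' := by rw [hc', hc'']; linarith
  have e3 : c'' < cp := by rw [hc'']; linarith
  obtain ⟨ηX, hηX⟩ : ∃ ηX, ηX = min ((b - a) * η0) a := ⟨_, rfl⟩
  have hηX0 : 0 < ηX := by rw [hηX]; exact lt_min (by positivity) ha
  have hηX1 : ηX ≤ (b - a) * η0 := by rw [hηX]; exact min_le_left _ _
  have hηXa : ηX ≤ a := by rw [hηX]; exact min_le_right _ _
  obtain ⟨ν, hν0, hRX⟩ := hrx N μ (-c'') ηX hN hμ hηX0
  have hbase := hL.base ha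
  obtain ⟨η1, ε0, R0, K3, s0, hη1, hη1δ, hε0, _, hR0, hK3, hs0, hP⟩ :=
    hp1s N (rcut f a b) (resc f a b) φ c lam K k μ η0 θ hN hL.hyp (resc_lip hlip hL.ab)
      (fun s hs => by unfold rcut; rw [if_pos hs]) hbase (min (δ / (b - a)) 1) c' (ν * (c'' - c'))
      (lt_min (by positivity) one_pos) e1 (mul_pos hν0 (by linarith))
  have hη1' : η1 ≤ 1 := hη1δ.trans (min_le_right _ _)
  have hη1'' : (b - a) * η1 ≤ δ := by
    have := hη1δ.trans (min_le_left _ _)
    rw [le_div_iff₀ hΔ] at this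
    linarith
  -- R2
  obtain ⟨R2, hR2, hR2'⟩ : ∃ R2, R0 ≤ R2 ∧ ηX * Real.exp (ν * (1 + R0 - R2)) ≤ (b - a) * ε0 := by
    refine ⟨R0 + 1 + max 0 (Real.log (ηX / ((b - a) * ε0)) / ν), by
      have := le_max_left 0 (Real.log (ηX / ((b - a) * ε0)) / ν)
      linarith, ?_⟩
    have h1 : Real.log (ηX / ((b - a) * ε0)) ≤
        ν * max 0 (Real.log (ηX / ((b - a) * ε0)) / ν) := by
      have h2 := le_max_right 0 (Real.log (ηX / ((b - a) * ε0)) / ν)
      have h3 := mul_le_mul_of_nonneg_left h2 hν0.le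
      rwa [mul_div_cancel₀ _ hν0.ne'] at h3
    have h4 : Real.exp (ν * (1 + R0 - (R0 + 1 + max 0 (Real.log (ηX / ((b - a) * ε0)) / ν)))) ≤
        Real.exp (-(Real.log (ηX / ((b - a) * ε0)))) := by
      apply Real.exp_le_exp.2
      linarith
    rw [Real.exp_neg, Real.exp_log (by positivity), inv_div] at h4
    calc _ ≤ ηX * ((b - a) * ε0 / ηX) := mul_le_mul_of_nonneg_left h4 hηX0.le
      _ = _ := by field_simp
  obtain ⟨ηa, Ra, K3a, sa, hηa, hηaX, hRa, hK3a, hsa, hA⟩ := hLa ηX hηX0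
  obtain ⟨A, hA0, hST⟩ := hst0 N K hN hK0
  obtain ⟨s', hs'⟩ : ∃ s', s' = max (max sa 1) ((K3a / cp) ^ 2) := ⟨_, rfl⟩
  have hs'1 : sa ≤ s' := by
    rw [hs']; exact (le_max_left _ _).trans (le_max_left _ _)
  have hs'2 : 1 ≤ s' := by
    rw [hs']; exact (le_max_right _ _).trans (le_max_left _ _)
  have hs'3 : (K3a / cp) ^ 2 ≤ s' := by
    rw [hs']; exact le_max_right _ _
  have hcp : 0 < cp := by linarith
  obtain ⟨RS, hRS⟩ : ∃ RS, RS = max (max R2 1) (max (Ra + R2 + K3a ^ 2 / (4 * (cp - c'')))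
    (1 + R2 + c'' * s' + A * s' - Real.log ηX)) := ⟨_, rfl⟩
  have hRS1 : R2 ≤ RS := by
    rw [hRS]; exact (le_max_left _ _).trans (le_max_left _ _)
  have hRS2 : 1 ≤ RS := by
    rw [hRS]; exact (le_max_right _ _).trans (le_max_left _ _)
  have hRS3 : Ra + R2 + K3a ^ 2 / (4 * (cp - c'')) ≤ RS := by
    rw [hRS]; exact (le_max_left _ _).trans (le_max_right _ _)
  have hRS4 : 1 + R2 + c'' * s' + A * s' - Real.log ηX ≤ RS := by
    rw [hRS]; exact (le_max_right _ _).trans (le_max_right _ _)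
  refine ⟨(b - a) * η1, RS, K3, s0, by positivity, hη1'', hRS2, hK3, hs0, ?_⟩
  intro u hu hrng t0 ht0 x0 hball s hs y hy
  have hbη : a ≤ b - (b - a) * η1 := by nlinarith
  -- the function v
  have hv1 : ∀ t, 0 ≤ t → ∀ x, |a - u (t0 + t) x| ≤ 1 := by
    intro t ht x
    have := hrng (t0 + t) (by linarith) x
    rw [abs_le]
    constructor <;> linarith [this.1, this.2]
  have hfa := hL.fa
  have hvK : ∀ t, 0 ≤ t → ∀ x, 0 < a - u (t0 + t) x →
      deriv (fun s => a - u (t0 + s) x) t ≤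
        Laplacian.laplacian (fun x => a - u (t0 + t) x) x + K * (a - u (t0 + t) x) := by
    intro t ht x hpos
    rw [(sub_facts hu ht0 a ht).2.2 x]
    have h1 := hlip.lip (u (t0 + t) x) a
    rw [hfa, sub_zero, abs_sub_comm, abs_of_pos hpos] at h1
    have := (abs_le.1 h1).1
    linarith
  have hvμ : ∀ t, 0 ≤ t → ∀ x, 0 < a - u (t0 + t) x → a - u (t0 + t) x ≤ ηX →
      deriv (fun s => a - u (t0 + s) x) t ≤
        Laplacian.laplacian (fun x => a - u (t0 + t) x) x - μ * (a - u (t0 + t) x) := by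
    intro t ht x hpos hle
    rw [(sub_facts hu ht0 a ht).2.2 x]
    have h1 := hbase (-((a - u (t0 + t) x) / (b - a))) 0 (by
      rw [neg_le_neg_iff, div_le_iff₀ hΔ]
      linarith) (by
      rw [neg_nonpos]
      positivity) hη0.le
    unfold resc at h1
    have h2 : a + (b - a) * -((a - u (t0 + t) x) / (b - a)) = u (t0 + t) x := by
      field_simp
      ring
    rw [h2, mul_zero, add_zero, hfa, mul_zero, zero_sub, zero_sub, neg_neg, neg_le_neg_iff] at h1
    have h3 := mul_le_mul_of_nonneg_left h1 hΔ.le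
    have h4 : (b - a) * ((b - a)⁻¹ * f (u (t0 + t) x)) = f (u (t0 + t) x) := by
      field_simp
    have h5 : (b - a) * (μ * ((a - u (t0 + t) x) / (b - a))) = μ * (a - u (t0 + t) x) := by
      field_simp
    rw [h4, h5] at h3
    linarith
  have hv0 : ∀ x, dist x x0 ≤ RS → a - u (t0 + 0) x ≤ 0 := by
    intro x hx
    have := hball x (mem_closedBall.2 hx)
    rw [add_zero]
    linarith
  have hc''0 : 0 < c'' := by linarith
  -- (1) short times
  have h1 : ∀ t, 0 ≤ t → t ≤ s' → ∀ x, dist x x0 ≤ R2 + c'' * t → a - u (t0 + t) x ≤ ηX := by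
    intro t ht hts x hx
    have hs'0 : 0 < s' := by linarith
    have k1 := hST (fun t x => a - u (t0 + t) x) x0 RS s' hs'0
      (fun t ht x => (abs_le.1 (hv1 t ht.1 x)).2) ⟨1, fun t ht x => hv1 t ht.1 x⟩
      (sub_cont hu ht0 a s') (fun t ht => (sub_facts hu ht0 a ht.1.le).1)
      (fun t ht => (sub_facts hu ht0 a ht.1.le).2.1)
      (fun t ht x hpos => hvK t ht.1.le x hpos) hv0 t ⟨ht, hts⟩ x
    have k2 : Real.exp (1 + dist x x0 - RS + A * t) ≤ Real.exp (Real.log ηX) := by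
      apply Real.exp_le_exp.2
      have k3 : c'' * t ≤ c'' * s' := mul_le_mul_of_nonneg_left hts hc''0.le
      have k4 : A * t ≤ A * s' := mul_le_mul_of_nonneg_left hts hA0.le
      linarith
    rw [Real.exp_log hηX0] at k2
    exact k1.trans k2
  -- (2) large times
  have h2 : ∀ t, s' ≤ t → ∀ x, dist x x0 ≤ R2 + c'' * t → a - u (t0 + t) x ≤ ηX := by
    intro t ht x hx
    have ht1 : 1 ≤ t := hs'2.trans ht
    have ht0' : 0 ≤ t := by linarith
    have k1 := sqrt_bound (d := cp - c'') (Ka := K3a) (by linarith) ht0'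
    have k2 : 0 ≤ cp * t - K3a * √t := by
      have k3 : K3a / cp ≤ √t := by
        apply Real.le_sqrt_of_sq_le
        exact hs'3.trans ht
      rw [div_le_iff₀ hcp] at k3
      have k4 : √t * √t = t := Real.mul_self_sqrt ht0'
      nlinarith [Real.sqrt_nonneg t]
    have k5 : 0 ≤ K3a ^ 2 / (4 * (cp - c'')) := by
      have : 0 < cp - c'' := by linarith
      positivity
    obtain ⟨x', hx', hx''⟩ := exists_centre x0 x (A := RS - Ra) (B := cp * t - K3a * √t)
      (by linarith) k2 (by linarith)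
    have k6 := hA u hu hrng t0 ht0 x' (by
      intro z hz
      have hz' : dist z x0 ≤ RS := by
        have := dist_triangle z x' x0
        rw [mem_closedBall] at hz
        linarith
      have := hball z (mem_closedBall.2 hz')
      linarith) t (hs'1.trans ht) x hx''
    linarith
  have h12 : ∀ t, 0 ≤ t → ∀ x, dist x x0 ≤ R2 + c'' * t → a - u (t0 + t) x ≤ ηX := by
    intro t ht x hx
    rcases le_total t s' with h | h
    · exact h1 t ht h x hx
    · exact h2 t h x hx
  -- (3)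
  have h3 : ∀ t, 0 ≤ t → ∀ x, dist x x0 ≤ R0 + c' * t →
      a - u (t0 + t) x ≤ (b - a) * ε0 * Real.exp (-(ν * (c'' - c') * t)) := by
    intro t ht x hx
    have hct : c' * t ≤ c'' * t := mul_le_mul_of_nonneg_right e2.le ht
    have k1 := hRX (fun t x => a - u (t0 + t) x) x0 R2 (t + 1) 1 (by linarith)
      (fun t ht x => hv1 t ht.1 x) (sub_cont hu ht0 a (t + 1))
      (fun t ht => (sub_facts hu ht0 a ht.1.le).1)
      (fun t ht => (sub_facts hu ht0 a ht.1.le).2.1)
      (fun t ht x hpos hle => hvμ t ht.1.le x hpos hle)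
      (fun x hx => hv0 x (hx.trans hRS1))
      (fun t ht x hx => h12 t ht.1 x (by linarith)) t ⟨ht, by linarith⟩ x (by linarith)
    refine k1.trans ?_
    calc ηX * Real.exp (ν * (1 + dist x x0 - (R2 - -c'' * t)))
        ≤ ηX * Real.exp (ν * (1 + R0 - R2) + -(ν * (c'' - c') * t)) := by
          apply mul_le_mul_of_nonneg_left _ hηX0.le
          apply Real.exp_le_exp.2
          have : ν * dist x x0 ≤ ν * (R0 + c' * t) := mul_le_mul_of_nonneg_left hx hν0.le
          nlinarith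
      _ = ηX * Real.exp (ν * (1 + R0 - R2)) * Real.exp (-(ν * (c'' - c') * t)) := by
          rw [Real.exp_add]
          ring
      _ ≤ _ := mul_le_mul_of_nonneg_right hR2' (Real.exp_pos _).le
  -- (4)
  have k := hP (fun t x => (u t x - a) / (b - a)) (hrsc N f a b u hL.ab hu) t0 ht0 x0
    (by
      intro z hz
      have hz' : z ∈ closedBall x0 RS := closedBall_subset_closedBall (hR2.trans hRS1) hz
      have := hball z hz'
      rw [le_div_iff₀ hΔ]
      linarith)
    (by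
      intro τ hτ z hz
      have := h3 τ hτ z hz
      rw [le_div_iff₀ hΔ]
      linarith) s hs y hy
  rw [le_div_iff₀ hΔ] at k
  linarith

end Pool.Agent.H11.RD
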