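import Pool.Agent.H91.RD.Targets2
import Pool.Agent.H91.RD.Basic

/-!
# MP_609556_an: module RX (relaxation near a stable state in a moving ball)
-/

open MeasureTheory Set Filter Topology Metric

namespace Pool.Agent.H11.RD

open Pool.Agent.H91.RD

theorem lap_sub' {N : ℕ} {g h : E N → ℝ} {x : E N} (hg : ContDiffAt ℝ 2 g x)
    (hh : ContDiffAt ℝ 2 h x) :
    Laplacian.laplacian (fun y => g y - h y) x =
      Laplacian.laplacian g x - Laplacian.laplacian h x := hg.laplacian_sub hh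

theorem continuous_rad' {N : ℕ} (x0 : E N) :
    Continuous (fun x : E N => √((1 : ℝ) ^ 2 + ‖x - x0‖ ^ 2)) := by
  fun_prop

theorem norm_le_rad' {N : ℕ} (x0 x : E N) : dist x x0 ≤ √((1 : ℝ) ^ 2 + ‖x - x0‖ ^ 2) := by
  rw [dist_eq_norm]
  apply Real.le_sqrt_of_sq_le
  nlinarith

theorem one_le_rad' {N : ℕ} (x0 x : E N) : 1 ≤ √((1 : ℝ) ^ 2 + ‖x - x0‖ ^ 2) := by
  apply Real.le_sqrt_of_sq_le
  nlinarith [sq_nonneg ‖x - x0‖]

theorem rad_le' {N : ℕ} (x0 x : E N) :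
    √((1 : ℝ) ^ 2 + ‖x - x0‖ ^ 2) ≤ 1 + dist x x0 := by
  rw [dist_eq_norm]
  apply Real.sqrt_le_iff.2
  constructor
  · positivity
  · nlinarith [norm_nonneg (x - x0)]

/-- the exponential barrier -/
noncomputable def SX (η0 ν a r : ℝ) : ℝ := η0 * Real.exp (-(ν * (a - r)))

theorem SX_pos {η0 ν a r : ℝ} (h : 0 < η0) : 0 < SX η0 ν a r := by
  unfold SX
  positivity

theorem SX_contDiff (η0 ν a : ℝ) : ContDiff ℝ 2 (SX η0 ν a) := by
  unfold SX
  fun_prop

theorem SX_deriv (η0 ν a r : ℝ) : HasDerivAt (SX η0 ν a) (ν * SX η0 ν a r) r := by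
  have h1 : HasDerivAt (fun r : ℝ => -(ν * (a - r))) ν r := by
    have := (((hasDerivAt_id r).const_sub a).const_mul ν).neg
    exact this.congr_deriv (by ring)
  have h2 := (h1.exp).const_mul η0
  unfold SX
  refine h2.congr_deriv ?_
  ring

theorem SX_deriv_a (η0 ν r b c2 t : ℝ) :
    HasDerivAt (fun t => SX η0 ν (b - c2 * t) r) (ν * c2 * SX η0 ν (b - c2 * t) r) t := by
  have h1 : HasDerivAt (fun t : ℝ => -(ν * (b - c2 * t - r))) (ν * c2) t := by
    have := (((((hasDerivAt_id t).const_mul c2).const_sub b).sub_const r).const_mul ν).neg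
    exact this.congr_deriv (by ring)
  have h2 := (h1.exp).const_mul η0
  unfold SX
  refine h2.congr_deriv ?_
  ring

theorem radL_SX (N : ℕ) (η0 ν a r : ℝ) (hN : 1 ≤ N) (hη : 0 < η0) (hν : 0 < ν) (hr : 1 ≤ r) :
    radL N 1 (SX η0 ν a) r ≤ (ν ^ 2 + ν * N) * SX η0 ν a r := by
  have d1 : deriv (SX η0 ν a) = fun r => ν * SX η0 ν a r := by
    funext s
    exact (SX_deriv η0 ν a s).deriv
  have d2 : deriv (deriv (SX η0 ν a)) r = ν * (ν * SX η0 ν a r) := by
    rw [d1]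
    exact ((SX_deriv η0 ν a r).const_mul ν).deriv
  unfold radL
  rw [d2, d1]
  have hS := SX_pos (ν := ν) (a := a) (r := r) hη
  have hN1 : (1 : ℝ) ≤ N := by exact_mod_cast hN
  have h1 : ((N : ℝ) - 1) / r ≤ N - 1 := by
    rw [div_le_iff₀ (by linarith)]
    nlinarith
  have h2 : (1 : ℝ) ^ 2 / r ^ 3 ≤ 1 := by
    rw [div_le_iff₀ (by positivity)]
    have := one_le_pow₀ hr (n := 3)
    linarith
  have h3 : 1 - (1 : ℝ) ^ 2 / r ^ 2 ≤ 1 := by
    have : 0 ≤ (1 : ℝ) ^ 2 / r ^ 2 := by positivity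
    linarith
  have h4 : ν * (ν * SX η0 ν a r) * (1 - (1 : ℝ) ^ 2 / r ^ 2) ≤ ν * (ν * SX η0 ν a r) * 1 :=
    mul_le_mul_of_nonneg_left h3 (by positivity)
  have h5 : ν * SX η0 ν a r * (((N : ℝ) - 1) / r + (1 : ℝ) ^ 2 / r ^ 3) ≤
      ν * SX η0 ν a r * N :=
    mul_le_mul_of_nonneg_left (by linarith) (by positivity)
  calc _ ≤ ν * (ν * SX η0 ν a r) * 1 + ν * SX η0 ν a r * N := add_le_add h4 h5
    _ = _ := by ring

open Classical in
theorem rx (hR : T_RAD) (hM : T_MP0) : T_RX := by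
  intro N μ c2 η0 hN hμ hη0
  have hden : 0 < |c2| + N + 1 := by positivity
  obtain ⟨ν, hν⟩ : ∃ ν, ν = min 1 (μ / (|c2| + N + 1)) := ⟨_, rfl⟩
  have hν0 : 0 < ν := by
    rw [hν]
    exact lt_min one_pos (by positivity)
  have hν1 : ν ≤ 1 := by rw [hν]; exact min_le_left _ _
  have hν2 : ν * (|c2| + N + 1) ≤ μ := by
    have : ν ≤ μ / (|c2| + N + 1) := by rw [hν]; exact min_le_right _ _
    rwa [le_div_iff₀ hden] at this
  refine ⟨ν, hν0, ?_⟩
  intro v x0 R2 σ M hσ hvM hvc hvC2 hvd hvi hv0 hvη t ht x hx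
  have hrc : Continuous (fun x : E N => √((1 : ℝ) ^ 2 + ‖x - x0‖ ^ 2)) := continuous_rad' x0
  have hSc : Continuous (fun p : ℝ × E N =>
      SX η0 ν (R2 - c2 * p.1) (√((1 : ℝ) ^ 2 + ‖p.2 - x0‖ ^ 2))) := by
    unfold SX
    have := hrc.comp (continuous_snd (X := ℝ))
    fun_prop
  have hge : ∀ t x, R2 - c2 * t ≤ dist x x0 →
      η0 ≤ SX η0 ν (R2 - c2 * t) (√((1 : ℝ) ^ 2 + ‖x - x0‖ ^ 2)) := by
    intro t x hx
    unfold SX
    have h1 := norm_le_rad' x0 x
    have h2 : 1 ≤ Real.exp (-(ν * (R2 - c2 * t - √((1 : ℝ) ^ 2 + ‖x - x0‖ ^ 2)))) := by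
      apply Real.one_le_exp
      nlinarith
    nlinarith
  have key := hM N 0 0 σ |M| (fun t x => if dist x x0 ≤ R2 - c2 * t then
      min (SX η0 ν (R2 - c2 * t) (√((1 : ℝ) ^ 2 + ‖x - x0‖ ^ 2)) - v t x) 0 else 0)
    le_rfl hσ ?_ ?_ ?_ ?_ t ht x
  · rw [if_pos hx] at key
    have h1 := le_min_iff.1 key
    have h2 : v t x ≤ SX η0 ν (R2 - c2 * t) (√((1 : ℝ) ^ 2 + ‖x - x0‖ ^ 2)) := by linarith [h1.1]
    refine h2.trans ?_
    unfold SX
    apply mul_le_mul_of_nonneg_left _ hη0.le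
    apply Real.exp_le_exp.2
    have h3 := rad_le' x0 x
    nlinarith
  · -- continuity
    refine ContinuousOn.if (p := fun p : ℝ × E N => dist p.2 x0 ≤ R2 - c2 * p.1) ?_ ?_ ?_
    · rintro ⟨s, y⟩ ⟨⟨hs, _⟩, hfr⟩
      have h1 := frontier_le_subset_eq (f := fun p : ℝ × E N => dist p.2 x0)
        (g := fun p : ℝ × E N => R2 - c2 * p.1) (by fun_prop) (by fun_prop) hfr
      have h2 : dist y x0 = R2 - c2 * s := h1
      have h3 := hge s y h2.ge
      have h4 := hvη s hs y h2.le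
      exact min_eq_right (by linarith)
    · refine ContinuousOn.mono ?_ inter_subset_left
      refine ContinuousOn.inf ?_ continuousOn_const
      exact hSc.continuousOn.sub hvc
    · exact continuousOn_const
  · -- lower bound
    intro s hs y
    split_ifs with h
    · have h1 := hvM s hs y
      have h2 := SX_pos (ν := ν) (a := R2 - c2 * s) (r := √((1 : ℝ) ^ 2 + ‖y - x0‖ ^ 2)) hη0
      have h3 := (abs_le.1 h1).2
      have h4 := le_abs_self M
      have h5 := abs_nonneg M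
      exact le_min (by linarith) (by linarith)
    · have := abs_nonneg M
      linarith
  · -- differential inequality
    intro s hs y hz
    have hs' : s ∈ Icc 0 σ := ⟨hs.1.le, hs.2⟩
    by_cases hin : dist y x0 ≤ R2 - c2 * s
    swap
    · rw [if_neg hin] at hz
      exact absurd hz (lt_irrefl _)
    rw [if_pos hin] at hz
    have hz' : SX η0 ν (R2 - c2 * s) (√((1 : ℝ) ^ 2 + ‖y - x0‖ ^ 2)) - v s y < 0 := by
      rcases min_lt_iff.1 hz with h | h
      · exact h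
      · exact absurd h (lt_irrefl _)
    have hvη' := hvη s hs' y hin
    have hlt : dist y x0 < R2 - c2 * s := by
      rcases hin.lt_or_eq with h | h
      · exact h
      · have := hge s y h.ge
        linarith
    -- the set of space variables
    have ev1 : (fun z => if dist z x0 ≤ R2 - c2 * s then
        min (SX η0 ν (R2 - c2 * s) (√((1 : ℝ) ^ 2 + ‖z - x0‖ ^ 2)) - v s z) 0 else 0) =ᶠ[𝓝 y]
        fun z => SX η0 ν (R2 - c2 * s) (√((1 : ℝ) ^ 2 + ‖z - x0‖ ^ 2)) - v s z := by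
      have c1 : ContinuousAt (fun z : E N => dist z x0) y := by fun_prop
      have c2' : ContinuousAt (fun z : E N =>
          SX η0 ν (R2 - c2 * s) (√((1 : ℝ) ^ 2 + ‖z - x0‖ ^ 2)) - v s z) y := by
        refine ContinuousAt.sub ?_ (hvC2 s hs).continuous.continuousAt
        exact ((SX_contDiff η0 ν _).continuous.comp hrc).continuousAt
      filter_upwards [c1.eventually (gt_mem_nhds hlt), c2'.eventually (gt_mem_nhds hz')]
        with z h1 h2
      rw [if_pos h1.le, min_eq_left h2.le]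
    have ev2 : (fun q => if dist y x0 ≤ R2 - c2 * q then
        min (SX η0 ν (R2 - c2 * q) (√((1 : ℝ) ^ 2 + ‖y - x0‖ ^ 2)) - v q y) 0 else 0) =ᶠ[𝓝 s]
        fun q => SX η0 ν (R2 - c2 * q) (√((1 : ℝ) ^ 2 + ‖y - x0‖ ^ 2)) - v q y := by
      have c1 : ContinuousAt (fun q : ℝ => R2 - c2 * q) s := by fun_prop
      have c2' : ContinuousAt (fun q : ℝ =>
          SX η0 ν (R2 - c2 * q) (√((1 : ℝ) ^ 2 + ‖y - x0‖ ^ 2)) - v q y) s :=
        (SX_deriv_a η0 ν _ R2 c2 s).continuousAt.sub (hvd s hs y).continuousAt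
      filter_upwards [c1.eventually (lt_mem_nhds hlt), c2'.eventually (gt_mem_nhds hz')]
        with q h1 h2
      rw [if_pos h1.le, min_eq_left h2.le]
    have hSr := hR N 1 x0 (SX η0 ν (R2 - c2 * s)) one_pos (SX_contDiff _ _ _)
    have hd1 := SX_deriv_a η0 ν (√((1 : ℝ) ^ 2 + ‖y - x0‖ ^ 2)) R2 c2 s
    have hd2 := hvd s hs y
    refine ⟨?_, ?_, ?_⟩
    · exact (hSr.1.contDiffAt.sub (hvC2 s hs).contDiffAt).congr_of_eventuallyEq ev1
    · exact (hd1.differentiableAt.sub hd2).congr_of_eventuallyEq ev2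
    · have l1 := InnerProductSpace.laplacian_congr_nhds ev1
      rw [ev2.deriv_eq]
      have l2 : deriv (fun q => SX η0 ν (R2 - c2 * q) (√((1 : ℝ) ^ 2 + ‖y - x0‖ ^ 2)) - v q y) s =
          ν * c2 * SX η0 ν (R2 - c2 * s) (√((1 : ℝ) ^ 2 + ‖y - x0‖ ^ 2)) -
            deriv (fun q => v q y) s := by
        have := hd1.sub hd2.hasDerivAt
        exact this.deriv
      rw [l2]
      have l3 := l1.eq_of_nhds
      rw [l3, lap_sub' hSr.1.contDiffAt (hvC2 s hs).contDiffAt, hSr.2 y, zero_mul, add_zero]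
      have hSpos := SX_pos (ν := ν) (a := R2 - c2 * s) (r := √((1 : ℝ) ^ 2 + ‖y - x0‖ ^ 2)) hη0
      have l4 := radL_SX N η0 ν (R2 - c2 * s) (√((1 : ℝ) ^ 2 + ‖y - x0‖ ^ 2)) hN hη0 hν0
        (one_le_rad' x0 y)
      have l5 := hvi s hs y (by linarith) hvη'
      have hN0 : (0 : ℝ) ≤ N := Nat.cast_nonneg N
      have l6 : (ν ^ 2 + ν * N) - ν * c2 ≤ μ := by
        have : -c2 ≤ |c2| := neg_le_abs c2
        nlinarith
      have l7 : μ * SX η0 ν (R2 - c2 * s) (√((1 : ℝ) ^ 2 + ‖y - x0‖ ^ 2)) ≤ μ * v s y :=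
        mul_le_mul_of_nonneg_left (by linarith) hμ.le
      have l8 := mul_le_mul_of_nonneg_right l6 hSpos.le
      nlinarith
  · intro y
    split_ifs with h
    · rw [mul_zero, sub_zero] at h
      have h1 := hv0 y h
      have h2 := SX_pos (ν := ν) (a := R2 - c2 * 0) (r := √((1 : ℝ) ^ 2 + ‖y - x0‖ ^ 2)) hη0
      exact le_min (by linarith) le_rfl
    · exact le_rfl

end Pool.Agent.H11.RD
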