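import Pool.Agent.H82.RD.Targets

/-!
MP_7ecdd4_nt, board rd82_modules, row TLS: few primes for triples of large height.
-/

set_option autoImplicit false

namespace Pool.Agent.H11.RD

open Pool.Agent.H82.RD Pool.Agent.H38.RB Pool.Agent.H38.PS

theorem prod_fact {m : ℕ} (hm : m ≠ 0) {T : Finset ℕ} (h : m.primeFactors ⊆ T) :
    ∏ l ∈ T, l ^ m.factorization l = m := by
  have h1 : ∏ l ∈ m.primeFactors, l ^ m.factorization l = ∏ l ∈ T, l ^ m.factorization l := by
    apply Finset.prod_subset h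
    intro l _ hl
    have h2 : m.factorization l = 0 := by
      rw [← Nat.support_factorization] at hl
      exact Finsupp.notMem_support_iff.1 hl
    rw [h2, pow_zero]
  rw [← h1]
  exact Nat.prod_factorization_pow_eq_self hm

theorem sum3 {x : Fin 3 → ℤ} (h : x 0 + x 1 + x 2 = 0) {a b c : Fin 3} (hab : a ≠ b)
    (hac : a ≠ c) (hbc : b ≠ c) : x a + x b + x c = 0 := by
  fin_cases a <;> fin_cases b <;> fin_cases c <;> simp_all <;> linarith

theorem le_ht (x : Fin 3 → ℤ) (b : Fin 3) : (x b).natAbs ≤ ht x := by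
  unfold ht
  fin_cases b
  · exact le_max_left _ _
  · exact (le_max_left _ _).trans (le_max_right _ _)
  · exact (le_max_right _ _).trans (le_max_right _ _)

/-- the relation for one prime -/
def Rel (S : Finset ℕ) (q e Bd p : ℕ) : Prop :=
  ∃ (n : ℕ) (α β : ℕ → ℕ), 1 ≤ n ∧ n ≤ Bd ∧ (∀ l ∈ S.erase q, α l ≤ Bd ∧ β l ≤ Bd) ∧
    (p ^ n * ∏ l ∈ S.erase q, l ^ β l) ^ 2 ≡ (∏ l ∈ S.erase q, l ^ α l) ^ 2 [MOD q ^ e]

theorem fact_le {X : ℝ} (hX : 16 ≤ X) {m l : ℕ} (hm : m ≠ 0) (hl : l.Prime)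
    (h : Real.log m ≤ X ^ 20) : m.factorization l ≤ ⌊X⌋₊ ^ 30 := by
  have h1 : 2 ^ m.factorization l ≤ m :=
    (Nat.pow_le_pow_left hl.two_le _).trans (Nat.le_of_dvd (Nat.pos_of_ne_zero hm)
      (Nat.ordProj_dvd m l))
  have h2 : (m.factorization l : ℝ) * Real.log 2 ≤ Real.log m := by
    have h3 : ((2 : ℝ) ^ m.factorization l) ≤ m := by exact_mod_cast h1
    have h4 := Real.log_le_log (by positivity) h3
    rwa [Real.log_pow] at h4
  have h5 : (0.6931471803 : ℝ) < Real.log 2 := Real.log_two_gt_d9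
  have h6 : (m.factorization l : ℝ) ≤ 2 * X ^ 20 := by
    have h7 : (0 : ℝ) ≤ m.factorization l := Nat.cast_nonneg _
    nlinarith [h2, h, h5]
  have h8 : X / 2 ≤ (⌊X⌋₊ : ℝ) := by
    have := Nat.lt_floor_add_one X
    linarith
  have h9 : 2 * X ^ 20 ≤ (⌊X⌋₊ : ℝ) ^ 30 := by
    have h10 : (X / 2) ^ 30 ≤ (⌊X⌋₊ : ℝ) ^ 30 := pow_le_pow_left₀ (by linarith) h8 30
    have h11 : (16 : ℝ) ^ 10 ≤ X ^ 10 := pow_le_pow_left₀ (by norm_num) hX 10
    have h12 : 2 * X ^ 20 ≤ (X / 2) ^ 30 := by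
      have h13 : (X / 2) ^ 30 = X ^ 20 * (X ^ 10 / 2 ^ 30) := by ring
      have h14 : (2 : ℝ) ≤ X ^ 10 / 2 ^ 30 := by
        rw [le_div_iff₀ (by norm_num)]
        exact le_trans (by norm_num) h11
      have h15 : (0 : ℝ) ≤ X ^ 20 := by positivity
      rw [h13]
      nlinarith
    exact h12.trans h10
  exact_mod_cast h6.trans h9

theorem pf_TLS (hSAB : T_SAB) (hTQC : T_TQC) (hTHB : T_THB) : T_TLS := by
  intro γ δ c₀ hγ hδ hc
  obtain ⟨X₁, -, hS⟩ := hSAB (γ / 2) (c₀ / 2) (by positivity) (by positivity)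
  obtain ⟨X₂, -, hT⟩ := hTHB
  -- large `X`
  have ho1 : ∀ᶠ X : ℝ in Filter.atTop, Real.log X ≤ δ * X ^ (c₀ / 2) := by
    have h := (isLittleO_log_rpow_atTop (by positivity : 0 < c₀ / 2)).bound hδ
    filter_upwards [h, Filter.eventually_ge_atTop (1 : ℝ)] with X hX hX1
    rw [Real.norm_of_nonneg (Real.log_nonneg hX1),
      Real.norm_of_nonneg (Real.rpow_nonneg (by linarith) _)] at hX
    exact hX
  have ho2 : ∀ᶠ X : ℝ in Filter.atTop, Real.log X ≤ (1 / 2) * X ^ (γ / 2) := by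
    have h := (isLittleO_log_rpow_atTop (by positivity : 0 < γ / 2)).bound
      (by norm_num : (0 : ℝ) < 1 / 2)
    filter_upwards [h, Filter.eventually_ge_atTop (1 : ℝ)] with X hX hX1
    rw [Real.norm_of_nonneg (Real.log_nonneg hX1),
      Real.norm_of_nonneg (Real.rpow_nonneg (by linarith) _)] at hX
    exact hX
  obtain ⟨X₃, hX₃⟩ := Filter.eventually_atTop.1 (ho1.and ho2)
  refine ⟨max (max 16 (X₁ + 1)) (max X₂ X₃), le_trans (by norm_num)
    ((le_max_left (16 : ℝ) (X₁ + 1)).trans (le_max_left _ _)), ?_⟩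
  intro X S hX hSp hpd
  have hX16 : 16 ≤ X := (le_max_left _ _).trans ((le_max_left _ _).trans hX)
  have hX1 : (X₁ : ℝ) + 1 ≤ X := (le_max_right _ _).trans ((le_max_left _ _).trans hX)
  have hX2 : X₂ ≤ X := (le_max_left _ _).trans ((le_max_right _ _).trans hX)
  obtain ⟨hl1, hl2⟩ := hX₃ X ((le_max_right _ _).trans ((le_max_right _ _).trans hX))
  have hX0 : 0 ≤ X := by linarith
  have hXpos : 0 < X := by linarith
  have hlogX : 0 < Real.log X := Real.log_pos (by linarith)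
  set N : ℕ := ⌊X⌋₊ with hN
  have hNX : (N : ℝ) ≤ X := Nat.floor_le hX0
  have hX1N : X₁ ≤ N := Nat.le_floor (by linarith)
  have hpdN : pd S ≤ N := Nat.le_floor hpd
  set e : ℕ := ⌈X ^ (c₀ / 2)⌉₊ with he
  have heX : X ^ (c₀ / 2) ≤ e := Nat.le_ceil _
  classical
  let P : ℕ → Finset ℕ := fun q => (Finset.range (N + 1)).filter fun p =>
    p.Prime ∧ p ∉ S ∧ Rel S q e (N ^ 30) p
  have hsub : famU X δ c₀ S ⊆ ((S.biUnion P : Finset ℕ) : Set ℕ) := by
    rintro p ⟨hp, hpS, hpX, x, a, b, c, hA, hrad, hab, hac, hbc, hcS, hbS, hpb, hδt, hH⟩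
    have hHpos : 0 < Real.log (ht x) := lt_of_lt_of_le (Real.rpow_pos_of_pos hXpos _) hH
    obtain ⟨q, hqS, hqa, hq⟩ := hTQC x a S X (δ * Real.log (ht x)) hA hSp hpd
      (mul_pos hδ hHpos) hδt
    have hHX : Real.log (ht x) ≤ X ^ 20 := hT X x hX2 hA hrad
    have hqp : q.Prime := hSp q hqS
    obtain ⟨hne, hcop, hsum⟩ := hA
    have hs := sum3 hsum hab hac hbc
    -- the power of `q`
    have hqe : q ^ e ∣ (x a).natAbs := by
      have h1 : e ≤ (x a).natAbs.factorization q := by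
        apply Nat.ceil_le.2
        have h2 : X ^ (c₀ / 2) * Real.log X ≤
            ((x a).natAbs.factorization q : ℝ) * Real.log X := by
          have h3 : X ^ c₀ = X ^ (c₀ / 2) * X ^ (c₀ / 2) := by
            rw [← Real.rpow_add hXpos]
            congr 1
            ring
          have h4 : 0 ≤ X ^ (c₀ / 2) := Real.rpow_nonneg hX0 _
          calc X ^ (c₀ / 2) * Real.log X ≤ X ^ (c₀ / 2) * (δ * X ^ (c₀ / 2)) :=
                mul_le_mul_of_nonneg_left hl1 h4
            _ = δ * X ^ c₀ := by rw [h3]; ring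
            _ ≤ δ * Real.log (ht x) := mul_le_mul_of_nonneg_left hH hδ.le
            _ ≤ _ := hq
        exact le_of_mul_le_mul_right h2 hlogX
      exact (pow_dvd_pow q h1).trans (Nat.ordProj_dvd _ _)
    have hnd : ∀ d : Fin 3, a ≠ d → ¬ q ∣ (x d).natAbs := by
      intro d had hqd
      have h1 : IsCoprime (x a) (x d) := hcop a d had
      have h2 : Nat.Coprime (x a).natAbs (x d).natAbs := Int.isCoprime_iff_gcd_eq_one.1 h1
      exact hqp.one_lt.ne' (Nat.eq_one_of_dvd_coprimes h2 hqa hqd)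
    have hb0 : (x b).natAbs ≠ 0 := Int.natAbs_ne_zero.2 (hne b)
    have hc0 : (x c).natAbs ≠ 0 := Int.natAbs_ne_zero.2 (hne c)
    have hlogd : ∀ d : Fin 3, Real.log ((x d).natAbs : ℝ) ≤ X ^ 20 := by
      intro d
      refine le_trans (Real.log_le_log ?_ ?_) hHX
      · have : 0 < (x d).natAbs := Int.natAbs_pos.2 (hne d)
        exact_mod_cast this
      · exact_mod_cast le_ht x d
    have hpSe : p ∉ S.erase q := fun h => hpS (Finset.mem_of_mem_erase h)
    rw [Finset.coe_biUnion, Set.mem_iUnion₂]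
    refine ⟨q, hqS, ?_⟩
    rw [Finset.mem_coe, Finset.mem_filter, Finset.mem_range]
    refine ⟨Nat.lt_succ_of_le (Nat.le_floor hpX), hp, hpS, (x b).natAbs.factorization p,
      fun l => (x c).natAbs.factorization l, fun l => (x b).natAbs.factorization l, ?_, ?_, ?_, ?_⟩
    · exact (hp.dvd_iff_one_le_factorization hb0).1 hpb
    · exact fact_le hX16 hb0 hp (hlogd b)
    · intro l hl
      have hlp : l.Prime := hSp l (Finset.mem_of_mem_erase hl)
      exact ⟨fact_le hX16 hc0 hlp (hlogd c), fact_le hX16 hb0 hlp (hlogd b)⟩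
    · have hxb : p ^ (x b).natAbs.factorization p *
          ∏ l ∈ S.erase q, l ^ (x b).natAbs.factorization l = (x b).natAbs := by
        have h1 : (x b).natAbs.primeFactors ⊆ insert p (S.erase q) := by
          intro l hl
          have h2 := hbS hl
          rcases Finset.mem_insert.1 h2 with h3 | h3
          · rw [h3]; exact Finset.mem_insert_self _ _
          · apply Finset.mem_insert_of_mem
            refine Finset.mem_erase.2 ⟨fun h4 => ?_, h3⟩
            exact hnd b hab (h4 ▸ Nat.dvd_of_mem_primeFactors hl)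
        have h2 := prod_fact hb0 h1
        rwa [Finset.prod_insert hpSe] at h2
      have hxc : ∏ l ∈ S.erase q, l ^ (x c).natAbs.factorization l = (x c).natAbs := by
        apply prod_fact hc0
        intro l hl
        refine Finset.mem_erase.2 ⟨fun h4 => ?_, hcS hl⟩
        exact hnd c hac (h4 ▸ Nat.dvd_of_mem_primeFactors hl)
      rw [hxb, hxc]
      have h5 : ((q ^ e : ℕ) : ℤ) ∣ x a := by
        rw [← Int.natAbs_dvd_natAbs, Int.natAbs_natCast]
        exact hqe
      have h6 : ((q ^ e : ℕ) : ℤ) ∣ (x c) ^ 2 - (x b) ^ 2 := by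
        have h7 : (x c) ^ 2 - (x b) ^ 2 = x a * (x b - x c) := by
          have h8 : x a = -(x b) - x c := by linarith
          rw [h8]; ring
        rw [h7]
        exact Dvd.dvd.mul_right h5 _
      rw [← Int.natCast_modEq_iff, Int.modEq_iff_dvd]
      push_cast
      rw [sq_abs, sq_abs]
      exact_mod_cast h6
  have hcard : ∀ q ∈ S, ((P q).card : ℝ) ≤ X ^ (γ / 2) := by
    intro q hqS
    have hqp := hSp q hqS
    have hrel : ∀ p : ℕ, ∃ (n : ℕ) (α β : ℕ → ℕ), p ∈ P q → 1 ≤ n ∧ n ≤ N ^ 30 ∧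
        (∀ l ∈ S.erase q, α l ≤ N ^ 30 ∧ β l ≤ N ^ 30) ∧
        (p ^ n * ∏ l ∈ S.erase q, l ^ β l) ^ 2 ≡ (∏ l ∈ S.erase q, l ^ α l) ^ 2 [MOD q ^ e] := by
      intro p
      by_cases hp : p ∈ P q
      · obtain ⟨n, α, β, h⟩ := (Finset.mem_filter.1 hp).2.2.2
        exact ⟨n, α, β, fun _ => h⟩
      · exact ⟨0, fun _ => 0, fun _ => 0, fun h => absurd h hp⟩
    choose n α β hnab using hrel
    have hqN : q ≤ N := le_trans (Nat.le_of_dvd
      (Nat.pos_of_ne_zero (Finset.prod_ne_zero_iff.2 fun l hl => (hSp l hl).ne_zero))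
      (Finset.dvd_prod_of_mem (fun l => l) hqS)) hpdN
    have h1 := hS N q e (S.erase q) (P q) n α β hX1N hqp hqN
      (fun l hl => ⟨hSp l (Finset.mem_of_mem_erase hl), Finset.ne_of_mem_erase hl⟩)
      (le_trans (Finset.prod_le_prod_of_subset_of_one_le' (Finset.erase_subset _ _)
        fun l hl _ => (hSp l hl).one_le) hpdN)
      (le_trans (Real.rpow_le_rpow (Nat.cast_nonneg _) hNX (by positivity)) heX)
      (fun p hp => by
        have h2 := Finset.mem_filter.1 hp
        have h3 := hnab p hp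
        exact ⟨h2.2.1, fun h => h2.2.2.1 (h ▸ hqS),
          fun h => h2.2.2.1 (Finset.mem_of_mem_erase h),
          Nat.lt_succ_iff.1 (Finset.mem_range.1 h2.1), h3.1, h3.2.1, h3.2.2.1, h3.2.2.2⟩)
    exact h1.le.trans (Real.rpow_le_rpow (Nat.cast_nonneg _) hNX (by positivity))
  refine ⟨(Finset.finite_toSet _).subset hsub, ?_⟩
  have hScard : (S.card : ℝ) ≤ 2 * Real.log X := by
    have h1 : (2 : ℝ) ^ S.card ≤ X := by
      refine le_trans ?_ hpd
      have h2 : 2 ^ S.card ≤ pd S := by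
        unfold pd
        exact Finset.pow_card_le_prod _ _ _ fun l hl => (hSp l hl).two_le
      exact_mod_cast h2
    have h2 := Real.log_le_log (by positivity) h1
    rw [Real.log_pow] at h2
    have h5 : (0.6931471803 : ℝ) < Real.log 2 := Real.log_two_gt_d9
    have h7 : (0 : ℝ) ≤ S.card := Nat.cast_nonneg _
    nlinarith
  have h1 : ((famU X δ c₀ S).ncard : ℝ) ≤ ((S.biUnion P).card : ℝ) := by
    have h2 := Set.ncard_le_ncard hsub (Finset.finite_toSet _)
    rw [Set.ncard_coe_finset] at h2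
    exact_mod_cast h2
  have h2 : ((S.biUnion P).card : ℝ) ≤ ∑ q ∈ S, ((P q).card : ℝ) := by
    exact_mod_cast Finset.card_biUnion_le
  have h3 : ∑ q ∈ S, ((P q).card : ℝ) ≤ S.card * X ^ (γ / 2) := by
    have h4 := Finset.sum_le_card_nsmul S (fun q => ((P q).card : ℝ)) _ hcard
    rwa [nsmul_eq_mul] at h4
  have h4 : X ^ γ = X ^ (γ / 2) * X ^ (γ / 2) := by
    rw [← Real.rpow_add hXpos]
    congr 1
    ring
  have h5 : 0 ≤ X ^ (γ / 2) := Real.rpow_nonneg hX0 _
  calc ((famU X δ c₀ S).ncard : ℝ) ≤ S.card * X ^ (γ / 2) := h1.trans (h2.trans h3)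
    _ ≤ (2 * Real.log X) * X ^ (γ / 2) := mul_le_mul_of_nonneg_right hScard h5
    _ ≤ X ^ (γ / 2) * X ^ (γ / 2) := mul_le_mul_of_nonneg_right (by linarith) h5
    _ = X ^ γ := h4.symm

end Pool.Agent.H11.RD
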